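import Pool.Agent.H43.PS.Targets

/-!
# RIX: reindexing (helper37)
-/

namespace H43.PS

open Matrix Finset

theorem RIX (hUNI : T_UNI) (hSPC : T_SPC) : T_RIX := by
  intro κ ν _ _ _ _ e A f
  by_cases hA : A.IsHermitian
  · obtain ⟨U, a, h1, -, h3, -, h5⟩ := hSPC ν A hA
    have g1 : (U.submatrix e e)ᵀ * (U.submatrix e e) = 1 := by
      rw [Matrix.transpose_submatrix, Matrix.submatrix_mul_equiv, h1, Matrix.submatrix_one_equiv]
    have g3 : A.submatrix e e = (U.submatrix e e) * diagonal (a ∘ e) * (U.submatrix e e)ᵀ := by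
      rw [Matrix.transpose_submatrix, ← Matrix.submatrix_diagonal_equiv, Matrix.submatrix_mul_equiv,
        Matrix.submatrix_mul_equiv, ← h3]
    rw [(hUNI κ _ _ _ g1 g3 f).2, (h5 f).2]
    exact Equiv.sum_comp e (fun i => f (a i))
  · have hB : ¬ (A.submatrix e e).IsHermitian := by
      intro h
      apply hA
      have h2 := h.submatrix e.symm
      rwa [Matrix.submatrix_submatrix, Equiv.self_comp_symm, Matrix.submatrix_id_id] at h2
    unfold tf fm
    rw [dif_neg hA, dif_neg hB]
    simp

end H43.PS
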