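import Pool.Agent.H43.PS.Targets

/-!
# SPC: spectral theorem package (helper37)
-/

namespace H43.PS

open Matrix Finset

theorem SPC (hUNI : T_UNI) : T_SPC := by
  intro κ _ _ A hA
  have h1 : (hA.eigenvectorUnitary : Matrix κ κ ℝ)ᵀ * (hA.eigenvectorUnitary : Matrix κ κ ℝ) = 1 := by
    have h := Unitary.coe_star_mul_self hA.eigenvectorUnitary
    rwa [Matrix.star_eq_conjTranspose, Matrix.conjTranspose_eq_transpose_of_trivial] at h
  have h2 : (hA.eigenvectorUnitary : Matrix κ κ ℝ) * (hA.eigenvectorUnitary : Matrix κ κ ℝ)ᵀ = 1 :=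
    mul_eq_one_comm.mp h1
  have h3 : A = (hA.eigenvectorUnitary : Matrix κ κ ℝ) * diagonal hA.eigenvalues *
      (hA.eigenvectorUnitary : Matrix κ κ ℝ)ᵀ := by
    have h := hA.spectral_theorem
    rw [Unitary.conjStarAlgAut_apply, Matrix.star_eq_conjTranspose,
      Matrix.conjTranspose_eq_transpose_of_trivial] at h
    exact h
  exact ⟨(hA.eigenvectorUnitary : Matrix κ κ ℝ), hA.eigenvalues, h1, h2, h3,
    fun hp i => hp.eigenvalues_nonneg i, fun f => hUNI κ _ _ A h1 h3 f⟩

end H43.PS
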